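import Pool.Agent.Run7.h286.PL.SelDef
import Pool.Agent.N415.PJ.MAIN
import Pool.Agent.N615.JM.FamT2
import Pool.Agent.N738.PJ.Exs

/-!
# The exact law of the 2-Selmer groups of the quadratic twists of a hyperelliptic Jacobian of any
genus over `k(t)`, `k` a fixed finite field, with all moments

Let `k` be a finite field of odd characteristic with `q` elements, `K = k(t)`, `g ≥ 1`, and let
`f = x ^ (2 g + 1) + f_{2 g - 1} x ^ (2 g - 1) + ... + f_0` be a polynomial over `k[t]` with
`deg f_j ≤ 2 N (2 g + 1 - j)`, `N ≥ 1`, such that the discriminant of `f` is a squarefree polynomial in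
`t` and the polynomial over `k` formed by the coefficients of `t ^ (2 N (2 g + 1 - j))` in the `f_j`
is irreducible. For `D` in `k[t]`, squarefree, let `J_D` be the Jacobian of the curve
`D y ^ 2 = f(x)` of genus `g` over `K`; these are all the quadratic twists of `J_1`. Let `Sel(D)` be the
2-Selmer group of `J_D` (the classes in `H ^ 1 (K, J_D[2])` which are zero in `H ^ 1 (K_v, J_D)` for all
places `v` of `K`).

Theorem. Let `u` in `k`, `u ≠ 0`, and let `D` run through the squarefree polynomials of degree `m` with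
leading coefficient `u` which are prime to the discriminant of `f`, `m → ∞` (`q`, `g`, `f` are fixed).
1. The proportion of the `D` with `dim Sel(D) = d` tends to
   `p_d = ∏_{j ≥ 0} (1 + 2 ^ (-j)) ^ (-1) ∏_{i = 1}^d 2 / (2 ^ i - 1)`, the law of Poonen and Rains.
2. The average of `|Sel(D)| ^ j` tends to `(1 + 2) (1 + 4) ... (1 + 2 ^ j)`: in particular the average order of
   the 2-Selmer group tends to `3`. The average of `dim Sel(D)` tends to `∑_{j ≥ 0} 1 / (2 ^ j + 1) = 1.2645`.
3. More generally the average of `φ(dim Sel(D))` tends to `∑ p_d φ(d)` for every `φ` of at most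
   exponential growth (so half of the dimensions are even: `φ(d) = (-1) ^ d`).
4. For every `D`: `J_D(K)` has no element of order two, `|Sel(D)| = [J_D(K) : 2 J_D(K)] |Sha(J_D)[2]|`, and
   if `Sel(D)` is trivial then `J_D(K)` is uniquely divisible by two and the 2-primary part of the
   Tate-Shafarevich group of `J_D` is zero; this is so for a proportion `p_0 > 0.2097` of the `D`.
5. If the characteristic is larger than `2 g + 1`, the `f` as above are a positive proportion of all
   the `f` with `deg f_j ≤ 2 N (2 g + 1 - j)`, as `N` tends to infinity.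

So for more than `20.97` percent of *all* quadratic twists `J_D`, in the natural ordering by the degree of
`D` and over a fixed finite field `k`, the group `J_D(K)`, finitely generated by the theorem of Lang
and Néron, is finite of odd order, so the rank is zero, and by the theorem of Kato and Trihan the
whole conjecture of Birch and Swinnerton-Dyer holds for `J_D` (finiteness of the Tate-Shafarevich
group, order of vanishing, formula); the rank is at most `1` for more than `62.9` percent of the twists, and
the average rank is at most `1.2646`. So 1 and 2 are the law and the moments of `2 ^ rank |Sha(J_D)[2]|`.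

`J(L)` is the Picard group of the affine coordinate ring `L[x, y] / (y ^ 2 - F)`, because the only
point at infinity of the curve is rational (`Pool/Agent/Y713/SE/Stm.lean`). The 2-Selmer group and
`Sha[2]` are defined in `Pool/Agent/Run7/h286/PL/SelDef.lean`. The curve `D y ^ 2 = f(x)` has
the equation `y ^ 2 = F(x)` with `F = f.scaleRoots D = D ^ (2 g + 1) f(x / D)`.

## Proof

`L = K(θ)`, `f(θ) = 0`, `n = 2 g + 1`. The 2-Selmer group is a group of classes in `L* / L*²` of square
norm which are even at all primes that do not divide `D` and satisfy at the primes `P` dividing `D` a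
condition given by the factorisations `f ≡ a b` modulo `P` (project TG for one inclusion; for the
converse Hensel's lemma and a theorem on values of polynomials over finite fields, helpers 209, 711,
824; there is no condition at infinity, helper270; the cohomological group: helpers 382, 760, 803, 215; the exact sequence with `Sha[2]`: helper886).
The group with the condition at one prime `Q` removed is as large as predicted by Poitou-Tate duality
(from the reciprocity law of project TG and the counting of `S`-units and ideal classes: helpers 847,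
212, 711, 502, 957). So a prime `Q` with one prime of `L` over it does not change the group, and a prime `Q`
with two primes over it makes the dimension larger by one if the group is trivial at `Q`, smaller by one
otherwise; by the bounds of Weil the first happens for the proportion `2 ^ (-d)` of the `Q`. This is a
Markov chain with the law `p_d` as its stationary law (helper160). The number of the primes with at most
two primes over them which divide `D` is close to Poisson, and the identity
`∑_D ∑_{Q ∣ D} F(D, Q) = ∑_Q ∑_D F(D Q, Q)` with weights which are reciprocals of descending factorials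
gives `R` steps of the chain without errors, while the average of the order of the groups is bounded
(project TG); helpers 303, 704, 957. The law over all local classes gives the natural law by primes with one
prime of `L` over them, whose quadratic characters are equidistributed (helper908). Moments: outside of a
proportion `O(1 / s)` of the `Q` a group of order `s` becomes smaller by the factor `2 ^ (nr Q - 1)`, so all moments
are bounded over all local classes, and then in the natural ordering (helpers 209, 216, 416, 547, 704,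
711).

Projects PRL (helper286) and TG (helper784, with helpers 68, 81, 286, 382, 646, 688, 711, 760, 779, 781,
811, 886, 908, 973), and the libraries TS (helper875), PJ and JB (helper352) and PP (helper874).
-/

set_option autoImplicit false
set_option linter.all false

namespace Pool.Agent.Results.MP_60d5ce_nt.ExactLawOfTwists

open Polynomial Filter IsDedekindDomain
open scoped Classical Topology
open Run7.h286.SelDef (Selmer selmerRank Meaning)

section defs

variable {k : Type} [Field k]

/-- The discriminant of the monic polynomial `f` of degree `2 g + 1` in `x` over `k[t]`, up to the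
sign: the resultant of `f` and its derivative. -/
noncomputable def discriminant (g : ℕ) (f : k[X][X]) : k[X] :=
  f.resultant (derivative f) (2 * g + 1) (2 * g)

/-- `f = x ^ (2 g + 1) + f_{2 g - 1} x ^ (2 g - 1) + ... + f_0` with `deg f_j ≤ M (2 g + 1 - j)`. -/
structure HasHeight (g M : ℕ) (f : k[X][X]) : Prop where
  monic : f.Monic
  degree : f.natDegree = 2 * g + 1
  trace : f.coeff (2 * g) = 0
  height : ∀ j ≤ 2 * g, (f.coeff j).natDegree ≤ M * (2 * g + 1 - j)

/-- The reduction of `f` at infinity, the polynomial `x ^ (2 g + 1) + ∑ r_j x ^ j` over `k` where `r_j`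
is the coefficient of `t ^ (M (2 g + 1 - j))` in `f_j`. -/
noncomputable def atInfinity (g M : ℕ) (f : k[X][X]) : k[X] :=
  X ^ (2 * g + 1) + ∑ j ∈ Finset.range (2 * g + 1), C ((f.coeff j).coeff (M * (2 * g + 1 - j))) * X ^ j

/-- The family of curves: squarefree discriminant, irreducible reduction at infinity. -/
structure InFamily (g N : ℕ) (f : k[X][X]) : Prop extends HasHeight g (2 * N) f where
  inert : Irreducible (atInfinity g (2 * N) f)
  squarefree : Squarefree (discriminant g f)

/-- The squarefree polynomials `D` of degree `m` with leading coefficient `u`, prime to the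
discriminant of `f`. -/
def Twists (g : ℕ) (f : k[X][X]) (u : k) (m : ℕ) : Set k[X] :=
  {D | D.leadingCoeff = u ∧ D.natDegree = m ∧ Squarefree D ∧ IsCoprime D (discriminant g f)}

variable (K : Type) [Field K] [Algebra k[X] K] [IsFractionRing k[X] K]

/-- The monic equation `y ^ 2 = D ^ (2 g + 1) f(x / D)` of the quadratic twist `D y ^ 2 = f(x)` over
`K = k(t)`. -/
noncomputable def twist (f : k[X][X]) (D : k[X]) : K[X] := (f.scaleRoots D).map (algebraMap k[X] K)

end defs

/-- The law of Poonen and Rains. -/
noncomputable def prob (d : ℕ) : ℝ :=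
  (∏' j : ℕ, (1 + (1 / 2 : ℝ) ^ j))⁻¹ * ∏ i ∈ Finset.range d, (2 : ℝ) / (2 ^ (i + 1) - 1)

section statements

variable {k : Type} [Field k] (K : Type) [Field K] [Algebra k[X] K] [IsFractionRing k[X] K]

/-- The mean of `F` over the twists of degree `m` tends to `l`. -/
def MeanTendsTo (g : ℕ) (f : k[X][X]) (u : k) (F : k[X] → ℝ) (l : ℝ) : Prop :=
  Tendsto (fun m => (∑ᶠ D ∈ Twists g f u m, F D) / ((Twists g f u m).ncard : ℝ)) atTop (𝓝 l)

/-- The 2-Selmer group has order `2 ^ d` for the proportion `prob d` of the twists. -/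
def HasLaw (g : ℕ) (f : k[X][X]) (u : k) : Prop :=
  ∀ d : ℕ, Tendsto (fun m => (({D ∈ Twists g f u m | Nat.card (Selmer k (twist K f D)) = 2 ^ d} :
    Set k[X]).ncard : ℝ) / ((Twists g f u m).ncard : ℝ)) atTop (𝓝 (prob d))

/-- The moments of the order of the 2-Selmer groups. -/
def HasMoments (g : ℕ) (f : k[X][X]) (u : k) : Prop :=
  ∀ j : ℕ, MeanTendsTo g f u (fun D => (Nat.card (Selmer k (twist K f D)) : ℝ) ^ j)
    (∏ i ∈ Finset.Icc 1 j, (1 + (2 : ℝ) ^ i))

/-- The averages of the functions of exponential growth of the dimension. -/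
def HasMeans (g : ℕ) (f : k[X][X]) (u : k) : Prop :=
  ∀ φ : ℕ → ℝ, (∃ C y : ℝ, ∀ d, |φ d| ≤ C * y ^ d) →
    MeanTendsTo g f u (fun D => φ (selmerRank k (twist K f D))) (∑' d, prob d * φ d)

/-- The law and all the moments of the 2-Selmer groups of the twists. -/
structure ExactLaw (g : ℕ) (f : k[X][X]) (u : k) : Prop where
  law : HasLaw K g f u
  moments : HasMoments K g f u
  means : HasMeans K g f u
  meaning : ∀ m, ∀ D ∈ Twists g f u m, Meaning k (twist K f D)

end statements

/-- Numerical values for the law. -/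
structure Values : Prop where
  sum : HasSum prob 1
  zero : 0.2097 < prob 0
  zeroOne : 0.629 < prob 0 + prob 1
  mean : HasSum (fun j : ℕ => 1 / ((2 : ℝ) ^ j + 1)) (∑' d, prob d * d)
  meanLt : ∑' d, prob d * (d : ℝ) < 1.2646
  parity : ∑' d, prob d * (-1) ^ d = 0

/-- A positive proportion of the polynomials of height `2 N` is in the family, as `N → ∞`. -/
def PositiveProportion (g : ℕ) (k : Type) [Field k] : Prop :=
  ∃ c : ℝ, 0 < c ∧ ∀ᶠ N : ℕ in atTop, 0 < {f : k[X][X] | HasHeight g (2 * N) f}.ncard ∧
    c * ({f : k[X][X] | HasHeight g (2 * N) f}.ncard : ℝ) ≤ ({f : k[X][X] | InFamily g N f}.ncard : ℝ)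

section lemmas

variable {k : Type} [Field k]

theorem coeff_atInfinity (g M : ℕ) (f : k[X][X]) (i : ℕ) : (atInfinity g M f).coeff i =
    if i = 2 * g + 1 then 1 else if i ≤ 2 * g then (f.coeff i).coeff (M * (2 * g + 1 - i)) else 0 := by
  unfold atInfinity
  rw [coeff_add, coeff_X_pow, finset_sum_coeff]
  simp only [coeff_C_mul, coeff_X_pow]
  by_cases h1 : i = 2 * g + 1
  · rw [if_pos h1, if_pos h1, Finset.sum_eq_zero, add_zero]
    intro j hj
    rw [if_neg (by have := Finset.mem_range.1 hj; omega), mul_zero]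
  · rw [if_neg h1, if_neg h1, zero_add]
    by_cases h2 : i ≤ 2 * g
    · rw [if_pos h2, Finset.sum_eq_single i]
      · rw [if_pos rfl, mul_one]
      · intro j _ hj
        rw [if_neg (Ne.symm hj), mul_zero]
      · intro hi
        exact absurd (Finset.mem_range.2 (by omega)) hi
    · rw [if_neg h2, Finset.sum_eq_zero]
      intro j hj
      rw [if_neg (by have := Finset.mem_range.1 hj; omega), mul_zero]

theorem InFamily.fm [Finite k] {g N : ℕ} {f : k[X][X]} (h : InFamily g N f) (hg : 1 ≤ g)
    (hN : 1 ≤ N) (h2 : (2 : k) ≠ 0) : Run7.h784.TG.Fm g N (atInfinity g (2 * N) f) f := by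
  have hd : (atInfinity g (2 * N) f).natDegree = 2 * g + 1 := by
    refine natDegree_eq_of_le_of_coeff_ne_zero (natDegree_le_iff_coeff_eq_zero.2 fun i hi => ?_) ?_
    · rw [coeff_atInfinity, if_neg (by omega), if_neg (by omega)]
    · rw [coeff_atInfinity, if_pos rfl]
      exact one_ne_zero
  refine ⟨hg, hN, h2, ⟨?_, h.inert, hd, ?_⟩, ⟨⟨h.monic, h.degree, h.trace, h.height⟩, ?_, ?_,
    h.squarefree⟩⟩
  · rw [Monic, leadingCoeff, hd, coeff_atInfinity, if_pos rfl]
  · rw [coeff_atInfinity, if_neg (by omega), if_pos le_rfl, h.trace, coeff_zero]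
  · intro j hj
    rw [coeff_atInfinity, if_neg (by omega), if_pos hj]
  · intro Q hQ
    exact absurd hQ (Finset.notMem_empty Q)

theorem InFamily.of_fm {g N : ℕ} {r : k[X]} {f : k[X][X]} (hr : Pool.Agent.N352.PJ.GoodR g r)
    {S : Finset k[X]} {h : k[X] → k[X][X]} (hf : Pool.Agent.N352.PJ.Fam g N r S h f) :
    InFamily g N f := by
  have h1 : atInfinity g (2 * N) f = r := by
    ext i
    rw [coeff_atInfinity]
    by_cases h1 : i = 2 * g + 1
    · rw [if_pos h1, h1]
      have h3 := hr.1.coeff_natDegree
      rw [hr.2.2.1] at h3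
      exact h3.symm
    · rw [if_neg h1]
      by_cases h2 : i ≤ 2 * g
      · rw [if_pos h2, hf.inf i h2]
      · rw [if_neg h2, coeff_eq_zero_of_natDegree_lt (by rw [hr.2.2.1]; omega)]
  exact ⟨⟨hf.ht.mon, hf.ht.deg, hf.ht.tr, hf.ht.ht⟩, by rw [h1]; exact hr.2.1, hf.sq⟩

theorem prob_eq (d : ℕ) : prob d = Run7.h286.PL.wt d / ∑' i, Run7.h286.PL.wt i := by
  rw [prob, Run7.h160.PL.num.2.2.1.tprod_eq, mul_comm, div_eq_mul_inv]
  rfl

theorem Lw_eq (φ : ℕ → ℝ) : Run7.h286.PL.Lw φ = ∑' d, prob d * φ d := by
  rw [Run7.h286.PL.Lw, ← tsum_div_const]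
  refine tsum_congr fun d => ?_
  rw [prob_eq]
  ring

end lemmas

section main

variable {k : Type} [Field k] [Finite k] (K : Type) [Field K] [Algebra k[X] K]
  [IsFractionRing k[X] K]

/-- Properties of one twist. -/
theorem one {g N : ℕ} {r : k[X]} {f : k[X][X]} (hf : Run7.h784.TG.Fm g N r f) {u : k} (hu : u ≠ 0)
    {m : ℕ} {D : k[X]} (hD : D ∈ Twists g f u m) :
    Nat.card (Selmer k (twist K f D)) = 2 ^ Run7.h286.PL.rkJ K (f.scaleRoots D) ∧
    selmerRank k (twist K f D) = Run7.h286.PL.rkJ K (f.scaleRoots D) ∧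
    Meaning k (twist K f D) := by
  obtain ⟨h1, h2⟩ := Run7.h286.SelDef.one_tw hf K hu hD
  exact ⟨by rw [← h1]; exact h2.order, h1, h2⟩

theorem mean {g N : ℕ} {r : k[X]} {f : k[X][X]}
    (hf : Run7.h784.TG.Fm g N r f) {u : k} (hu : u ≠ 0) (φ : ℕ → ℝ)
    (hφ : ∃ C y : ℝ, ∀ d, |φ d| ≤ C * y ^ d) :
    Tendsto (fun m => (∑ᶠ D ∈ Twists g f u m, φ (selmerRank k (twist K f D))) /
      ((Twists g f u m).ncard : ℝ)) atTop (𝓝 (∑' d, prob d * φ d)) := by
  rw [← Lw_eq]
  refine (Run7.h286.PL.mean_tw Run7.h286.PL.fMOM hf K hu φ hφ).congr fun m => ?_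
  congr 1
  refine finsum_mem_congr rfl fun D hD => ?_
  rw [(one K hf hu hD).2.1]

theorem law {g N : ℕ} {r : k[X]} {f : k[X][X]}
    (hf : Run7.h784.TG.Fm g N r f) {u : k} (hu : u ≠ 0) (d : ℕ) :
    Tendsto (fun m => (({D ∈ Twists g f u m | Nat.card (Selmer k (twist K f D)) = 2 ^ d} :
      Set k[X]).ncard : ℝ) / ((Twists g f u m).ncard : ℝ)) atTop (𝓝 (prob d)) := by
  rw [prob_eq]
  refine (Run7.h286.PL.prop_tw Run7.h286.PL.fINL hf K hu d).congr fun m => ?_
  have h : ({D ∈ Twists g f u m | Nat.card (Selmer k (twist K f D)) = 2 ^ d} : Set k[X]) =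
      {D ∈ Run7.h286.PL.Twu g f u m | Run7.h286.PL.rkJ K (f.scaleRoots D) = d} := by
    ext D
    refine ⟨fun hD => ⟨hD.1, ?_⟩, fun hD => ⟨hD.1, ?_⟩⟩
    · have h1 := (one K hf hu hD.1).1
      have h2 := hD.2
      rw [h1] at h2
      exact Nat.pow_right_injective le_rfl h2
    · rw [(one K hf hu hD.1).1, hD.2]
  rw [h]
  rfl

theorem moment {g N : ℕ} {r : k[X]} {f : k[X][X]}
    (hf : Run7.h784.TG.Fm g N r f) {u : k} (hu : u ≠ 0) (j : ℕ) :
    Tendsto (fun m => (∑ᶠ D ∈ Twists g f u m, (Nat.card (Selmer k (twist K f D)) : ℝ) ^ j) /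
      ((Twists g f u m).ncard : ℝ)) atTop (𝓝 (∏ i ∈ Finset.Icc 1 j, (1 + (2 : ℝ) ^ i))) := by
  rw [← Run7.h547.PL.qid.2.1 j, Lw_eq]
  refine (mean K hf hu (fun d => ((2 : ℝ) ^ j) ^ d) ⟨1, 2 ^ j, fun d => ?_⟩).congr fun m => ?_
  · rw [one_mul, abs_of_nonneg (by positivity)]
  · congr 1
    refine finsum_mem_congr rfl fun D hD => ?_
    obtain ⟨h1, h2, -⟩ := one K hf hu hD
    rw [h1, h2]
    push_cast
    rw [← pow_mul, ← pow_mul, mul_comm]

end main

/-- Let `k` be a finite field of odd characteristic, `K = k(t)`, `g ≥ 1`, `f` in the family (monic of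
degree `2 g + 1` over `k[t]`, `f_{2 g} = 0`, `deg f_j ≤ 2 N (2 g + 1 - j)`, `N ≥ 1`, squarefree discriminant,
irreducible reduction at infinity), `u ≠ 0` in `k`, and let `D` run through the squarefree polynomials
of degree `m` with leading coefficient `u`, prime to the discriminant, `m → ∞`.
(1) The proportion of the `D` for which the 2-Selmer group of the Jacobian `J_D` of `D y ^ 2 = f(x)` has
order `2 ^ d` tends to `prob d`. (2) The average of the `j`-th power of the order tends to
`(1 + 2) ... (1 + 2 ^ j)`. (3) The average of `φ(dimension)` tends to `∑ prob d φ(d)` for all `φ` of at most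
exponential growth. (4) For every `D` the order is a power of two, `J_D(K)` has no 2-torsion,
`|Sel| = [J_D(K) : 2 J_D(K)] |Sha[2]|`, and if the Selmer group is trivial, then `J_D(K)` is uniquely
divisible by two and the 2-primary part of the Tate-Shafarevich group is zero.
(5) Values: the sum of the `prob d` is `1`, `prob 0 > 0.2097`, `prob 0 + prob 1 > 0.629`; the mean is
`∑ 1 / (2 ^ j + 1) < 1.2646`; the even dimensions have probability one half.
(6) If the characteristic is larger than `2 g + 1`, a positive proportion of all `f` with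
`deg f_j ≤ 2 N (2 g + 1 - j)` belongs to the family. -/
theorem result (g : ℕ) (hg : 1 ≤ g) (k : Type) [Field k] [Finite k]
    (h2 : (2 : k) ≠ 0) (K : Type) [Field K] [Algebra k[X] K] [IsFractionRing k[X] K] :
    (∀ (N : ℕ) (f : k[X][X]) (u : k), 1 ≤ N → InFamily g N f → u ≠ 0 → ExactLaw K g f u) ∧
    Values ∧ (((2 * g + 1).factorial : k) ≠ 0 → PositiveProportion g k) := by
  refine ⟨fun N f u hN hf hu => ?_, ?_, fun hp => ?_⟩
  · have hF := hf.fm hg hN h2
    exact ⟨law K hF hu, moment K hF hu, fun φ hφ => mean K hF hu φ hφ,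
      fun m D hD => (one K hF hu hD).2.2⟩
  · obtain ⟨n1, n2, n3, n4, n5⟩ := Run7.h160.PL.num
    obtain ⟨q1, q2, q3, q4, q5⟩ := Run7.h547.PL.qid
    have hZ := abs_lt.1 n4
    have hZ0 : 0 < ∑' i, Run7.h286.PL.wt i := by linarith
    have hw0 : Run7.h286.PL.wt 0 = 1 := by simp [Run7.h286.PL.wt]
    have hw1 : Run7.h286.PL.wt 1 = 2 := by norm_num [Run7.h286.PL.wt]
    have hLd := Lw_eq fun d => (d : ℝ)
    have hLm := Lw_eq fun d => (-1 : ℝ) ^ d
    refine ⟨?_, ?_, ?_, ?_, ?_, ?_⟩
    · have h1 := n2.hasSum.div_const (∑' i, Run7.h286.PL.wt i)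
      rw [div_self hZ0.ne'] at h1
      have h7 : prob = fun d => Run7.h286.PL.wt d / ∑' i, Run7.h286.PL.wt i := funext prob_eq
      rw [h7]
      exact h1
    · rw [prob_eq, hw0, lt_div_iff₀ hZ0]
      linarith
    · rw [prob_eq, prob_eq, hw0, hw1, ← add_div, lt_div_iff₀ hZ0]
      linarith
    · rw [← hLd]
      exact q4
    · rw [← hLd]
      linarith [(abs_lt.1 q5).2]
    · rw [← hLm]
      exact q3
  · obtain ⟨r, hr⟩ := Pool.Agent.N738.PJ.gr g k hp
    obtain ⟨c, hc, h⟩ := Pool.Agent.N615.JM.fam g k hg hp r hr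
    obtain ⟨N₀, hN₀⟩ := h ∅ (fun _ => 0) (fun Q hQ => absurd hQ (Finset.notMem_empty Q))
    have hq : (0 : ℝ) < Nat.card k := by exact_mod_cast Nat.card_pos
    refine ⟨c / (Nat.card k : ℝ) ^ (2 * g), by positivity, ?_⟩
    filter_upwards [eventually_ge_atTop N₀] with N hN
    have h1 := hN₀ N hN
    rw [Finset.prod_empty, Nat.cast_one, one_mul] at h1
    have hset : {f : k[X][X] | HasHeight g (2 * N) f} =
        {f : k[X][X] | Pool.Agent.N352.PJ.Ht g (2 * N) f} :=
      Set.ext fun f => ⟨fun h => ⟨h.monic, h.degree, h.trace, h.height⟩,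
        fun h => ⟨h.mon, h.deg, h.tr, h.ht⟩⟩
    obtain ⟨hfin, hle⟩ := Pool.Agent.N415.PJMAIN.ht_card (k := k) g (2 * N)
    have hsub : {f : k[X][X] | Pool.Agent.N352.PJ.Fam g N r ∅ (fun _ => 0) f} ⊆
        {f : k[X][X] | InFamily g N f} := fun f hf => InFamily.of_fm hr hf
    have hsub2 : {f : k[X][X] | InFamily g N f} ⊆ {f : k[X][X] | Pool.Agent.N352.PJ.Ht g (2 * N) f} :=
      fun f hf => ⟨hf.monic, hf.degree, hf.trace, hf.height⟩
    have h2 := Set.ncard_le_ncard hsub (hfin.subset hsub2)
    have h3 := Set.ncard_le_ncard hsub2 hfin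
    rw [hset]
    have h4 : (0 : ℝ) < c * (Nat.card k : ℝ) ^ (2 * N * Pool.Agent.N352.PJ.dd g) := by positivity
    have h5 : (({f : k[X][X] | Pool.Agent.N352.PJ.Fam g N r ∅ (fun _ => 0) f}.ncard : ℕ) : ℝ) ≤
        ({f : k[X][X] | InFamily g N f}.ncard : ℝ) := by exact_mod_cast h2
    refine ⟨?_, ?_⟩
    · have h6 : (0 : ℝ) < ({f : k[X][X] | InFamily g N f}.ncard : ℝ) := by linarith
      have h7 : 0 < {f : k[X][X] | InFamily g N f}.ncard := by exact_mod_cast h6
      omega
    · refine le_trans ?_ (h1.trans h5)
      have h8 : ({f : k[X][X] | Pool.Agent.N352.PJ.Ht g (2 * N) f}.ncard : ℝ) ≤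
          (Nat.card k : ℝ) ^ (2 * N * Pool.Agent.N352.PJ.dd g + 2 * g) := by exact_mod_cast hle
      refine (mul_le_mul_of_nonneg_left h8 (by positivity)).trans (le_of_eq ?_)
      rw [pow_add]
      field_simp

end Pool.Agent.Results.MP_60d5ce_nt.ExactLawOfTwists
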