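import Pool.Agent.Run7.h905.BS.Ye
import Pool.Agent.Run7.h905.BS.Spec

/-!
# Hyperelliptic Jacobians over `k(t)` of every rank `r ≤ g` and every dimension `g`: a positive
# proportion satisfies the conjecture of Birch and Swinnerton-Dyer

Let `k` be a perfect field of characteristic different from 2, let `P`, `S`, `T` be polynomials over
`k`, `S` monic, `P` the product of `r ≥ 0` distinct monic irreducible polynomials `g_1, …, g_r` of odd
degree, `n = deg P + deg S` odd and `2 (deg P + deg T) < n`. For `γ ≠ 0`, `μ` in `k` and a polynomial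
`R` over `k` let `J` be the Jacobian over `K = k(t)` of the curve of genus `g = (n - 1) / 2`

  `γ (R(t) ^ 2 - μ) (y ^ 2 - 1) = P(x) (S(x) + T(x) R(t))`,

i.e. `q y ^ 2 = q + P (S + T R)` with `q = γ (R(t) ^ 2 - μ)`. It has the rational divisors `g_j(x) = 0`,
`y = 1`. (For `R = t` and `P ≠ 1` these are all the curves `q(t) y ^ 2 = f(x, t)`, `q = γ (t ^ 2 - μ)`,
`f` quadratic in `t`, monic of degree `n` in `x` with only one place at `t = ∞`, on which
all the points with `P(x) = 0`, `y = ± 1` lie.) Call `R` admissible if it is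
obtained from `t` by substitutions `R(t) ↦ R(α t ^ 2 + β)`, `α ≠ 0`, with the irreducible polynomial
`γ (R(β) ^ 2 - μ) + P (S + R(β) T)` in `k[x]`.

Theorem. 1. Suppose that `P S - (P T) ^ 2 / (4 γ) - γ μ` and `S ^ 2 - μ T ^ 2` are irreducible, that
`R` is admissible and `γ (R ^ 2 - μ)` irreducible, and that `R = t` or the degree of `S` is odd. Then
`J(K)[2] = 0`, the classes of the `r` divisors `g_j(x) = 0`, `y = 1` are a basis of `J(K) / 2 J(K)`,
and the 2-primary part of the Tate-Shafarevich group of `J` is zero.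

2. Let `n` and `n'` be given, `n` odd. For all sufficiently large finite fields `k` for which `n` and
`2 n'` divide `|k| - 1`, for every `S` of degree `n'` and every `P` as above with
`deg P + n' = n`, `deg P < n'`, and all `γ ≠ 0` there are at least `|k| / (2 M ^ M)`, `M = 2 (n + n')`,
elements `μ` of `k` such that for the curve

  `γ (t ^ 2 - μ) (y ^ 2 - 1) = P(x) (S(x) + t)`

over `k(t)` the conclusion of 1 holds: the rank is exactly `r`. If the degree of `S` is odd and `-1` is
a square in `k` then for the same `μ` this also holds over all the fields `k(t ^ (1 / 2 ^ i))`, i.e. for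
the curves `γ (t ^ (2 ^ (i + 1)) - μ) (y ^ 2 - 1) = P(x) (S(x) + t ^ (2 ^ i))`.

So for every `g ≥ 1` and every `0 ≤ r ≤ g` (take for `P` any product of `r` different `x - a_j`), a
positive proportion of this family of curves of genus `g` has rank exactly `r`, with explicit generators
modulo 2, and Q1 holds for their Jacobians: `J(K)` is finitely generated (Lang, Néron), by the theorem
the Tate-Shafarevich group has trivial 2-primary part, so the Brauer group of a smooth projective
model of the surface is finite (Artin, Tate, Milne), and by Kato and Trihan all three statements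
of Q1 hold. (These classical theorems are not formalised.) The Jacobians are not isotrivial in
general, for example all those with `P = x`, `S = x ^ (2 g)` if the characteristic does not divide
`2 g (2 g + 1)`. For `g = 1` and `R = t` the surface is a K3 surface, for `g ≥ 2` and `R = t` it has
Kodaira dimension one and geometric genus `g`, for `g ≥ 2` and the other `R` it is of general type.

In the proof of 1 the prime `Q = γ (R ^ 2 - μ)` of `k[t]` has `r + 1` places on the curve
`C : γ (R ^ 2 - μ) + P (S + T R) = 0`, given by the `g_j` and `S + T R` (this is irreducible modulo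
`Q` because of the second condition), and the 2-Selmer group of `J` is contained in a group of order
`2 ^ r` as soon as `k[x, t] / (C)` is a Dedekind domain without ideal classes of order two whose units
are constants. For `R = t` it is, in the coordinates `x`, `t + P T / (2 γ)`, a quadratic extension
of `k[x]` ramified only at the first irreducible polynomial and at infinity; the steps of the
tower are ramified only at one place of degree `n` and at infinity. For 2 the three polynomials
`P S - P ^ 2 / (4 γ) - γ μ`, `P S - γ μ` and `S ^ 2 - μ` in `x` over `k(μ)` are totally and tamely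
ramified at `μ = ∞`, there is a Frobenius element which permutes the roots of each of them
cyclically, and the theorem of Chebotarev, in an explicit form from Weil's bound, gives the `μ`.
-/

open Polynomial IsDedekindDomain
open scoped Classical

set_option autoImplicit false
set_option linter.all false

namespace Pool.Agent.Results.MP_60d5ce_nt.PositiveProportionEveryRank

open Pool.Agent.Y713.Jac (J CoordRing)
open Pool.Agent.N352.Sha (ShaTrivial)

section defs

/-- The Jacobian `J` of `y ^ 2 = F(x)` over `K` has no `K`-rational point of order two, the group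
`J(K) / 2 J(K)` has `2 ^ r` elements, and the rank of `J(K)` is `r` if `J(K)` is finitely generated. -/
structure RankIs {K : Type} [Field K] (F : K[X]) (r : ℕ) : Prop where
  torsion : ∀ P : J 2 F K, P ^ 2 = 1 → P = 1
  index : (powMonoidHom 2 : J 2 F K →* J 2 F K).range.index = 2 ^ r
  rank : Group.FG (J 2 F K) → Module.finrank ℤ (Additive (J 2 F K)) = r

/-- The class in `J(K)`, `J` the Jacobian of `y ^ 2 = F(x)`, of the ideal `(p(x), y - c(x))` of the
affine coordinate ring, i.e. of the divisor `p(x) = 0`, `y = c(x)`. -/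
def IsClass {K : Type} [Field K] (F p c : K[X]) (P : J 2 F K) : Prop :=
  ∃ (_ : IsDedekindDomain (CoordRing 2 F K))
    (h : Ideal.span {AdjoinRoot.of _ p, AdjoinRoot.root _ - AdjoinRoot.of _ c} ≠
      (⊥ : Ideal (CoordRing 2 F K))),
    P = ClassGroup.equivPic _ (ClassGroup.mk0
      ⟨Ideal.span {AdjoinRoot.of _ p, AdjoinRoot.root _ - AdjoinRoot.of _ c},
        mem_nonZeroDivisors_of_ne_zero h⟩)

variable {k : Type} [Field k] (K : Type) [Field K] [Algebra k[X] K]

/-- The polynomial `Q(t) ^ n h(x / Q(t), t)`, `n` the degree of `h` in `x`, over `K = k(t)`. -/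
noncomputable def scaled (h : k[X][X]) (Q : k[X]) : K[X] :=
  (h.map (algebraMap k[X] K)).scaleRoots (algebraMap k[X] K Q)

/-- The monic polynomial `F = Q(t) ^ n f(x / Q(t), t)`, `n` the degree of `f` in `x`. For odd `n` the
curve `Q(t) y ^ 2 = f(x, t)` is isomorphic to `Y ^ 2 = F(X)` by `X = Q(t) x`,
`Y = Q(t) ^ ((n + 1) / 2) y`. -/
noncomputable def curve (f : k[X][X]) (Q : k[X]) : K[X] := scaled K f Q

/-- `P` is the class of the divisor `g(x) = 0`, `y = 1` on the curve `Q(t) y ^ 2 = f(x, t)`. -/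
def IsPoint (f : k[X][X]) (Q g : k[X]) (P : J 2 (curve K f Q) K) : Prop :=
  IsClass (curve K f Q) (scaled K (g.map C) Q)
    (C (algebraMap k[X] K Q ^ ((f.natDegree + 1) / 2))) P

/-- The `g_j` are distinct monic irreducible polynomials of odd degree. -/
structure OddFactors {r : ℕ} (g : Fin r → k[X]) : Prop where
  distinct : Function.Injective g
  monic : ∀ j, (g j).Monic
  irreducible : ∀ j, Irreducible (g j)
  degree : ∀ j, Odd (g j).natDegree

/-- The conditions on the degrees: `S` is monic, `deg P + deg S` is odd and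
`2 (deg P + deg T) < deg P + deg S`. -/
structure Degrees (P S T : k[X]) : Prop where
  monic : S.Monic
  odd : Odd (P.natDegree + S.natDegree)
  lt : 2 * (P.natDegree + T.natDegree) < P.natDegree + S.natDegree

/-- The polynomial `q = γ (R(t) ^ 2 - μ)`. -/
noncomputable def quad (γ μ : k) (R : k[X]) : k[X] := C γ * (R ^ 2 - C μ)

/-- The polynomial `f = γ (R(t) ^ 2 - μ) + P(x) (S(x) + T(x) R(t))`. -/
noncomputable def poly (P S T : k[X]) (γ μ : k) (R : k[X]) : k[X][X] :=
  C (quad γ μ R) + P.map C * (S.map C + T.map C * C R)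

/-- The polynomial `t` is admissible, and with `R` the polynomials `R(α t ^ 2 + β)`, `α ≠ 0`, for
which `γ (R(β) ^ 2 - μ) + P(x) (S(x) + T(x) R(β))` is irreducible. -/
inductive Admissible (P S T : k[X]) (γ μ : k) : k[X] → Prop
  | start : Admissible P S T γ μ X
  | double (R : k[X]) (α β : k) : Admissible P S T γ μ R → α ≠ 0 →
      Irreducible (C (γ * (R.eval β ^ 2 - μ)) + P * (S + C (R.eval β) * T)) →
      Admissible P S T γ μ (R.comp (C α * X ^ 2 + C β))

/-- On the curve `Q(t) y ^ 2 = f(x, t)` the classes `P_j` of the divisors `g_j(x) = 0`, `y = 1` exist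
and are a basis of `J(K) / 2 J(K)`. -/
def IsBasis {r : ℕ} (g : Fin r → k[X]) (f : k[X][X]) (Q : k[X]) : Prop :=
  ∃ P : Fin r → J 2 (curve K f Q) K, (∀ j, IsPoint K f Q (g j) (P j)) ∧
    (∀ (s : Finset (Fin r)) (y : J 2 (curve K f Q) K), ∏ j ∈ s, P j = y ^ 2 → s = ∅) ∧
    ∀ x, ∃ (s : Finset (Fin r)) (y : J 2 (curve K f Q) K), x = (∏ j ∈ s, P j) * y ^ 2

/-- The conclusion for the Jacobian `J` of the curve
`γ (R ^ 2 - μ) (y ^ 2 - 1) = g_1(x) ⋯ g_r(x) (S(x) + T(x) R)` over `K = k(t)`: there is no point of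
order 2, `J(K) / 2 J(K)` has `2 ^ r` elements, the rank is `r` if `J(K)` is finitely generated, the
2-primary part of the Tate-Shafarevich group is zero, and the classes of the divisors `g_j(x) = 0`,
`y = 1` are a basis of `J(K) / 2 J(K)`. -/
def Holds [IsFractionRing k[X] K] {r : ℕ} (g : Fin r → k[X]) (S T : k[X]) (γ μ : k) (R : k[X]) :
    Prop :=
  RankIs (curve K (poly (∏ j, g j) S T γ μ R) (quad γ μ R)) r ∧
    ShaTrivial 2 (curve K (poly (∏ j, g j) S T γ μ R) (quad γ μ R)) k[X] ∧
    IsBasis K g (poly (∏ j, g j) S T γ μ R) (quad γ μ R)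

/-- The conclusion holds over `K = k(t)` for the curves
`γ (t ^ (2 ^ (i + 1)) - μ) (y ^ 2 - 1) = g_1(x) ⋯ g_r(x) (S(x) + t ^ (2 ^ i))`, `i = 0`, and if
the degree of `S` is odd and `-1` is a square in `k` also for all `i ≥ 1`. -/
def GoodValue {r : ℕ} (g : Fin r → k[X]) (S : k[X]) (γ μ : k) : Prop :=
  ∀ i : ℕ, (i = 0 ∨ (Odd S.natDegree ∧ ∃ ι : k, ι ^ 2 = -1)) →
    ∀ (K : Type) [Field K] [Algebra k[X] K] [IsFractionRing k[X] K],
      Holds K g S 1 γ μ (X ^ 2 ^ i)

end defs

open Run7.h905.BS

theorem Admissible.adm {k : Type} [Field k] {P S T : k[X]} {γ μ : k} {R : k[X]}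
    (h : Admissible P S T γ μ R) : Adm3 P S T γ μ R := by
  induction h with
  | start => exact Adm3.base
  | double R α β _ hα hirr ih => exact Adm3.step R α β hα ih hirr

section rank

variable {K : Type} [Field K]

theorem rankIs_of {F : K[X]} {r : ℕ} (h1 : ∀ x : Additive (J 2 F K), 2 • x = 0 → x = 0)
    (h2 : Nat.card (Additive (J 2 F K) ⧸ dbl (Additive (J 2 F K))) = 2 ^ r) : RankIs F r := by
  refine ⟨?_, ?_, ?_⟩
  · intro P hP
    have := h1 (Additive.ofMul P) (by
      rw [← ofMul_pow, hP]
      rfl)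
    exact Additive.ofMul.injective this
  · rw [← h2]
    show Nat.card (J 2 F K ⧸ (powMonoidHom 2 : J 2 F K →* J 2 F K).range) = _
    apply Nat.card_congr
    refine Quotient.congr Additive.ofMul ?_
    intro a b
    show QuotientGroup.leftRel _ a b ↔ QuotientAddGroup.leftRel _ _ _
    rw [QuotientGroup.leftRel_apply, QuotientAddGroup.leftRel_apply, mem_dbl,
      MonoidHom.mem_range]
    constructor
    · rintro ⟨R, hR⟩
      exact ⟨Additive.ofMul R, (congrArg Additive.ofMul hR).symm⟩
    · rintro ⟨R, hR⟩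
      exact ⟨Additive.toMul R, (congrArg Additive.toMul hR).symm⟩
  · intro hfg
    haveI : AddGroup.FG (Additive (J 2 F K)) := by
      rwa [← GroupFG.iff_add_fg] at *
    exact rank_of h1 h2

end rank

section parts

variable {k : Type} [Field k] {r : ℕ} {g : Fin r → k[X]}

theorem Degrees.degP (hg : OddFactors g) {S T : k[X]} (hd : Degrees (∏ j, g j) S T) :
    DegP (∏ j, g j) S T :=
  ⟨monic_prod_of_monic _ _ fun j _ => hg.monic j, hd.monic, hd.odd, hd.lt⟩

variable [PerfectField k] (K : Type) [Field K] [Algebra k[X] K] [IsFractionRing k[X] K]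

theorem holds_of (h2 : (2 : k) ≠ 0) (hg : OddFactors g) {S T : k[X]} {γ μ : k} {R : k[X]}
    (hd : Degrees (∏ j, g j) S T) (hγ : γ ≠ 0)
    (hG : Irreducible ((∏ j, g j) * S - C (4 * γ)⁻¹ * ((∏ j, g j) * T) ^ 2 - C (γ * μ)))
    (hS : Irreducible (S ^ 2 - C μ * T ^ 2)) (hR : Adm3 (∏ j, g j) S T γ μ R)
    (hQ : Irreducible (quad γ μ R)) (hi : R = X ∨ Odd S.natDegree) :
    Holds K g S T γ μ R := by
  have hD := hd.degP hg
  obtain ⟨h3, h4, h5, P, hP, hs, hgen⟩ := mainP K h2 hD hγ hg.monic hg.irreducible hg.distinct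
    hg.degree rfl hR hG hQ hS hi
  refine ⟨rankIs_of h3 h4, h5, fun j => Additive.toMul (P j), ?_, ?_, ?_⟩
  · intro j
    have hc : cP K (poly (∏ j, g j) S T γ μ R) (quad γ μ R) (1 : k[X][X]) =
        C (algebraMap k[X] K (quad γ μ R) ^
          (((poly (∏ j, g j) S T γ μ R).natDegree + 1) / 2)) := by
      unfold cP
      rw [Polynomial.map_one, one_comp, mul_one]
    have h9 := hP j
    have h10 : cP K (fP (∏ j, g j) S T γ μ R) (qP γ μ R) (1 : k[X][X]) =
        C (algebraMap k[X] K (quad γ μ R) ^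
          (((poly (∏ j, g j) S T γ μ R).natDegree + 1) / 2)) := hc
    rw [h10] at h9
    obtain ⟨a, b, c⟩ := h9
    exact ⟨a, b, congrArg Additive.toMul c⟩
  · intro s y hy
    apply hs
    refine ⟨Additive.ofMul y, ?_⟩
    have := congrArg Additive.ofMul hy
    rw [ofMul_prod, ofMul_pow] at this
    exact this
  · intro x
    obtain ⟨s, y, hy⟩ := hgen (Additive.ofMul x)
    refine ⟨s, Additive.toMul y, ?_⟩
    have := congrArg Additive.toMul hy
    rw [toMul_add, toMul_sum, toMul_nsmul] at this
    exact this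

end parts

theorem part2 (n n' : ℕ) (hn : Odd n) : ∃ C0 : ℕ, ∀ (k : Type) [Field k] [Finite k],
    C0 < Nat.card k → n ∣ Nat.card k - 1 → 2 * n' ∣ Nat.card k - 1 →
    ∀ (r : ℕ) (g : Fin r → k[X]), OddFactors g → ∀ S : k[X], S.Monic → S.natDegree = n' →
    (∏ j, g j).natDegree + n' = n → (∏ j, g j).natDegree < n' → ∀ γ : k, γ ≠ 0 →
    Nat.card k ≤ 2 * (2 * (n + n')) ^ (2 * (n + n')) * {μ : k | GoodValue g S γ μ}.ncard := by
  rcases Nat.eq_zero_or_pos n' with h0 | hn'
  · subst h0
    refine ⟨0, ?_⟩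
    intro k _ _ _ _ _ r g _ S _ _ _ h
    omega
  obtain ⟨C0, hC0⟩ := count3 n n' hn hn'
  refine ⟨C0, ?_⟩
  intro k _ _ hcard hd1 hd2 r g hg S hS hSn hsum hlt γ hγ
  obtain ⟨v, hv⟩ := IsCyclic.exists_generator (α := kˣ)
  obtain ⟨z2, hz2⟩ := gen_root hv ((Dvd.intro n' rfl).trans hd2)
  have h2 : (2 : k) ≠ 0 := by
    intro h
    have h3 : z2 = 1 := by
      have h4 : (z2 - 1) ^ 2 = 0 := by
        have := hz2.pow_eq_one
        linear_combination this - (z2 - 1) * h
      exact sub_eq_zero.1 (pow_eq_zero_iff two_ne_zero |>.1 h4)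
    exact hz2.ne_one one_lt_two h3
  have h4 : (4 * γ)⁻¹ ≠ 0 := by
    apply inv_ne_zero
    have : (4 : k) = 2 * 2 := by norm_num
    rw [this]
    exact mul_ne_zero (mul_ne_zero h2 h2) hγ
  have hPm : (∏ j, g j).Monic := monic_prod_of_monic _ _ fun j _ => hg.monic j
  have hd : Degrees (∏ j, g j) S 1 := by
    refine ⟨hS, ?_, ?_⟩
    · rw [hSn, hsum]
      exact hn
    · rw [natDegree_one, hSn]
      omega
  have hD := hd.degP hg
  obtain ⟨hGm, hGn⟩ := gP_spec (γ := γ) hD
  have hne : gP (∏ j, g j) S 1 γ ≠ (∏ j, g j) * S := by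
    intro h
    unfold gP at h
    rw [sub_eq_self, mul_eq_zero, C_eq_zero, pow_eq_zero_iff two_ne_zero, mul_one] at h
    rcases h with h | h
    · exact h4 h
    · exact hPm.ne_zero h
  refine (hC0 k hcard hd1 hd2 γ hγ (gP (∏ j, g j) S 1 γ) ((∏ j, g j) * S) S hGm (hPm.mul hS) hS hne
    (by rw [hGn, hSn, hsum]) (by rw [hPm.natDegree_mul hS, hSn, hsum]) hSn).trans
    (Nat.mul_le_mul_left _ (Set.ncard_le_ncard ?_ (Set.toFinite _)))
  rintro μ ⟨hA, hB, hS2⟩ i hi K _ _ _
  have hμ := nonsq hS (by rw [natDegree_one]; omega) hS2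
  have hi1 : i = 0 ∨ ∃ ι : k, ι ^ 2 = -1 := hi.imp id fun h => h.2
  refine holds_of K h2 hg hd hγ hA hS2 (Adm3.pow hB i) (qP_irr hγ hμ hi1) ?_
  rcases hi with rfl | hi
  · left
    rw [pow_zero, pow_one]
  · exact Or.inr hi.1

theorem result :
    (∀ (k K : Type) [Field k] [PerfectField k] [Field K] [Algebra k[X] K] [IsFractionRing k[X] K],
      (2 : k) ≠ 0 → ∀ (r : ℕ) (g : Fin r → k[X]), OddFactors g → ∀ (S T : k[X]),
      Degrees (∏ j, g j) S T → ∀ γ μ : k, γ ≠ 0 →
      Irreducible ((∏ j, g j) * S - C (4 * γ)⁻¹ * ((∏ j, g j) * T) ^ 2 - C (γ * μ)) →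
      Irreducible (S ^ 2 - C μ * T ^ 2) → ∀ R : k[X], Admissible (∏ j, g j) S T γ μ R →
      Irreducible (quad γ μ R) → (R = X ∨ Odd S.natDegree) → Holds K g S T γ μ R) ∧
    ∀ n n' : ℕ, Odd n → ∃ C0 : ℕ, ∀ (k : Type) [Field k] [Finite k],
      C0 < Nat.card k → n ∣ Nat.card k - 1 → 2 * n' ∣ Nat.card k - 1 →
      ∀ (r : ℕ) (g : Fin r → k[X]), OddFactors g → ∀ S : k[X], S.Monic → S.natDegree = n' →
      (∏ j, g j).natDegree + n' = n → (∏ j, g j).natDegree < n' → ∀ γ : k, γ ≠ 0 →
      Nat.card k ≤ 2 * (2 * (n + n')) ^ (2 * (n + n')) * {μ : k | GoodValue g S γ μ}.ncard := by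
  refine ⟨?_, part2⟩
  intro k K _ _ _ _ _ h2 r g hg S T hd γ μ hγ hG hS R hR hQ hi
  exact holds_of K h2 hg hd hγ hG hS hR.adm hQ hi

end Pool.Agent.Results.MP_60d5ce_nt.PositiveProportionEveryRank
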