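import Pool.Agent.Run7.h905.BS.Qj
import Pool.Agent.Run7.h905.BS.Spec

/-!
# Towers of quadratic extensions of `k(t)` over which the Jacobians of the surfaces
# `R(t) (y ^ 2 - 1) = E(x)` have rank `2 g` and satisfy the conjecture of Birch and Swinnerton-Dyer

Let `k` be a perfect field of characteristic different from 2, `E` in `k[x]` a monic polynomial which is
the product of `m` distinct irreducible polynomials `g_1, …, g_m` of odd degree, `m` odd, and let
`J_R` be the Jacobian over `K = k(t)` of the curve

  `R(t) (y ^ 2 - 1) = E(x)`,   i.e. `R(t) y ^ 2 = E(x) + R(t)`,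

of genus `g = (deg E - 1) / 2`. Call `R` admissible if it is obtained from a linear polynomial by
substitutions `R(t) ↦ R(α t ^ 2 + β)`, `α ≠ 0`, with `E(x) + R(β)` irreducible over `k`.

Theorem. 1. If `R` is admissible and irreducible, then `J_R(K)[2] = 0`, `J_R(K) / 2 J_R(K)` has
`2 ^ (m - 1)` elements, the 2-primary part of the Tate-Shafarevich group of `J_R` is zero, and (for
`m ≥ 2`) `J_R(K) / 2 J_R(K)` is generated by the classes of the constant divisors `g_j(x) = 0`,
`y = 1`.

2. Let `n ≥ 3` be odd. For all sufficiently large finite fields `k` with `4 n ∣ |k| - 1` and for every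
monic `E` in `k[x]` of degree `n` which is the product of `m` distinct irreducible polynomials of odd
degree (for example every `E` with `n` different roots in `k`, `m = n`), there are at least
`|k| / (2 n ^ n)` elements `e` of `k` such that for all `c` for which `e / c` is not a square (this is
half of all `c`) and for all `i ≥ 0` the Jacobian over `k(t)` of the curve

  `(c t ^ (2 ^ i) - e) (y ^ 2 - 1) = E(x)`

has no point of order 2, the rank `m - 1`, and the 2-primary part of its Tate-Shafarevich group is
zero.

So for every squarefree `E` of odd degree `n = 2 g + 1` prime to the characteristic, over all large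
fields `k` over which `E` has `n` roots and with `4 n ∣ |k| - 1`, a positive proportion
(at least `1 / (5 n ^ n)`) of the pairs `(c, e)` gives a Jacobian over `k(t)` of dimension `g` which has rank
exactly `2 g` over all the fields `k(t ^ (1 / 2 ^ i))`. Q1 holds for it over each of them:
`J(K)` is finitely generated (Lang, Néron), by the theorem the Tate-Shafarevich group has trivial
2-primary part, so the Brauer group of a smooth projective model of the surface is finite
(Artin, Tate, Milne), and by Kato and Trihan all three statements of Q1 hold. (These classical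
theorems are not formalised.) The Jacobians are not isotrivial unless `E = (x - a) ^ n + b`. The
conductors and the geometric genera of the surfaces are not bounded for `i → ∞`.

In the proof of 1, `R(t)` is a prime polynomial of which the curve `C : E(x) + R(t) = 0` has `m`
places, and the 2-Selmer group of `J_R` is contained in a group of order `2 ^ (m - 1)` as soon as the
ring `k[x, t] / (E(x) + R(t))` is a Dedekind domain without ideal classes of order two whose units are
the constants. This is shown by induction along the tower: each step is a quadratic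
extension of such a ring which is ramified only at one place of degree `deg E` and at the one place
at infinity, so there is no new class of order two. For 2, `c t ^ (2 ^ i) - e` is admissible if
`E(x) - e` is irreducible; as the cover `E` of the line is totally and tamely ramified at infinity and
`k` contains the roots of unity of order `n`, there is a Frobenius element which is an `n`-cycle,
and the theorem of Chebotarev, in an explicit form from Weil's bound, gives the `e`.
-/

open Polynomial IsDedekindDomain
open scoped Classical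

set_option autoImplicit false
set_option linter.all false

namespace Pool.Agent.Results.MP_60d5ce_nt.QuadraticTowers

open Pool.Agent.Y713.Jac (J CoordRing)
open Pool.Agent.N352.Sha (ShaTrivial)

section defs

/-- The Jacobian `J` of `y ^ 2 = F(x)` over `K` has no `K`-rational point of order two, the group
`J(K) / 2 J(K)` has `2 ^ r` elements, and the rank of `J(K)` is `r` if `J(K)` is finitely generated. -/
structure RankIs {K : Type} [Field K] (F : K[X]) (r : ℕ) : Prop where
  torsion : ∀ P : J 2 F K, P ^ 2 = 1 → P = 1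
  index : (powMonoidHom 2 : J 2 F K →* J 2 F K).range.index = 2 ^ r
  rank : Group.FG (J 2 F K) → Module.finrank ℤ (Additive (J 2 F K)) = r

/-- The class in `J(K)`, `J` the Jacobian of `y ^ 2 = F(x)`, of the ideal `(p(x), y - c(x))` of the
affine coordinate ring, i.e. of the divisor `p(x) = 0`, `y = c(x)`. -/
def IsClass {K : Type} [Field K] (F p c : K[X]) (P : J 2 F K) : Prop :=
  ∃ (_ : IsDedekindDomain (CoordRing 2 F K))
    (h : Ideal.span {AdjoinRoot.of _ p, AdjoinRoot.root _ - AdjoinRoot.of _ c} ≠
      (⊥ : Ideal (CoordRing 2 F K))),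
    P = ClassGroup.equivPic _ (ClassGroup.mk0
      ⟨Ideal.span {AdjoinRoot.of _ p, AdjoinRoot.root _ - AdjoinRoot.of _ c},
        mem_nonZeroDivisors_of_ne_zero h⟩)

variable {k : Type} [Field k] (K : Type) [Field K] [Algebra k[X] K]

/-- The polynomial `R(t) ^ n h(x / R(t))`, `n` the degree of `h`, over `K = k(t)`. -/
noncomputable def scaled (h : k[X][X]) (R : k[X]) : K[X] :=
  (h.map (algebraMap k[X] K)).scaleRoots (algebraMap k[X] K R)

/-- The monic polynomial `F = R(t) ^ n E(x / R(t)) + R(t) ^ (n + 1)`, `n` the degree of `E`. For odd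
`n` the curve `R(t) y ^ 2 = E(x) + R(t)` is isomorphic to `Y ^ 2 = F(X)` by `X = R(t) x`,
`Y = R(t) ^ ((n + 1) / 2) y`. -/
noncomputable def curve (E R : k[X]) : K[X] :=
  scaled K (E.map C + C R) R

/-- `P` is the class of the divisor `g(x) = 0`, `y = 1` on the curve `R(t) y ^ 2 = E(x) + R(t)`. -/
def IsPoint (E R g : k[X]) (P : J 2 (curve K E R) K) : Prop :=
  IsClass (curve K E R) (scaled K (g.map C) R)
    (C (algebraMap k[X] K R ^ ((E.natDegree + 1) / 2))) P

/-- The `g_j` are distinct monic irreducible polynomials of odd degree, and their number is odd. -/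
structure OddFactors {m : ℕ} (g : Fin m → k[X]) : Prop where
  number : Odd m
  distinct : Function.Injective g
  monic : ∀ j, (g j).Monic
  irreducible : ∀ j, Irreducible (g j)
  degree : ∀ j, Odd (g j).natDegree

/-- The linear polynomials are admissible, and with `R` the polynomials `R(α t ^ 2 + β)`, `α ≠ 0`, for
which `E(x) + R(β)` is irreducible. -/
inductive Admissible (E : k[X]) : k[X] → Prop
  | linear (α β : k) : α ≠ 0 → Admissible E (C α * X + C β)
  | double (R : k[X]) (α β : k) : Admissible E R → α ≠ 0 → Irreducible (E + C (R.eval β)) →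
      Admissible E (R.comp (C α * X ^ 2 + C β))

/-- The classes `P_j` of the divisors `g_j(x) = 0`, `y = 1` exist and generate `J(K) / 2 J(K)`. -/
def Generated {m : ℕ} (g : Fin m → k[X]) (R : k[X]) : Prop :=
  ∃ P : Fin m → J 2 (curve K (∏ j, g j) R) K, (∀ j, IsPoint K (∏ j, g j) R (g j) (P j)) ∧
    ∀ x, ∃ (S : Finset (Fin m)) (y : J 2 (curve K (∏ j, g j) R) K), x = (∏ j ∈ S, P j) * y ^ 2

/-- For all `c` for which `e / c` is not a square, for all `i` and `K = k(t)`: the Jacobian `J` of the curve
`(c t ^ (2 ^ i) - e) (y ^ 2 - 1) = g_1(x) ⋯ g_m(x)` has no point of order 2, `J(K) / 2 J(K)` has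
`2 ^ (m - 1)` elements, the rank is `m - 1` if `J(K)` is finitely generated, and the 2-primary part of
the Tate-Shafarevich group is zero. -/
def GoodTower {m : ℕ} (g : Fin m → k[X]) (e : k) : Prop :=
  ∀ c : k, (∀ b : k, b ^ 2 ≠ e / c) → ∀ (i : ℕ) (K : Type) [Field K] [Algebra k[X] K]
    [IsFractionRing k[X] K],
    RankIs (curve K (∏ j, g j) (C c * X ^ 2 ^ i - C e)) (m - 1) ∧
      ShaTrivial 2 (curve K (∏ j, g j) (C c * X ^ 2 ^ i - C e)) k[X]

end defs

open Run7.h905.BS

theorem Admissible.adm {k : Type} [Field k] {E R : k[X]} (h : Admissible E R) : Adm2 E R := by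
  induction h with
  | linear α β hα => exact Adm2.base α β hα
  | double R α β _ hα hirr ih => exact Adm2.step R α β hα ih hirr

section rank

variable {K : Type} [Field K]

theorem rankIs_of {F : K[X]} {r : ℕ} (h1 : ∀ x : Additive (J 2 F K), 2 • x = 0 → x = 0)
    (h2 : Nat.card (Additive (J 2 F K) ⧸ dbl (Additive (J 2 F K))) = 2 ^ r) : RankIs F r := by
  refine ⟨?_, ?_, ?_⟩
  · intro P hP
    have := h1 (Additive.ofMul P) (by
      rw [← ofMul_pow, hP]
      rfl)
    exact Additive.ofMul.injective this
  · rw [← h2]
    show Nat.card (J 2 F K ⧸ (powMonoidHom 2 : J 2 F K →* J 2 F K).range) = _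
    apply Nat.card_congr
    refine Quotient.congr Additive.ofMul ?_
    intro a b
    show QuotientGroup.leftRel _ a b ↔ QuotientAddGroup.leftRel _ _ _
    rw [QuotientGroup.leftRel_apply, QuotientAddGroup.leftRel_apply, mem_dbl,
      MonoidHom.mem_range]
    constructor
    · rintro ⟨R, hR⟩
      exact ⟨Additive.ofMul R, (congrArg Additive.ofMul hR).symm⟩
    · rintro ⟨R, hR⟩
      exact ⟨Additive.toMul R, (congrArg Additive.toMul hR).symm⟩
  · intro hfg
    haveI : AddGroup.FG (Additive (J 2 F K)) := by
      rwa [← GroupFG.iff_add_fg] at *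
    exact rank_of h1 h2

end rank

section parts

variable {k : Type} [Field k] {m : ℕ} {g : Fin m → k[X]}

theorem OddFactors.odd_deg (hg : OddFactors g) : Odd (∏ j, g j).natDegree := by
  rw [natDegree_prod_of_monic _ _ fun j _ => hg.monic j, Finset.odd_sum_iff_odd_card_odd]
  have : Finset.filter (fun j => Odd (g j).natDegree) Finset.univ = (Finset.univ : Finset (Fin m)) :=
    Finset.filter_true_of_mem fun j _ => hg.degree j
  rw [this, Finset.card_univ, Fintype.card_fin]
  exact hg.number

variable [PerfectField k] (K : Type) [Field K] [Algebra k[X] K] [IsFractionRing k[X] K]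
  {R : k[X]}

theorem part1 (h2 : (2 : k) ≠ 0) (hg : OddFactors g) (hR : Admissible (∏ j, g j) R)
    (hRi : Irreducible R) :
    RankIs (curve K (∏ j, g j) R) (m - 1) ∧ ShaTrivial 2 (curve K (∏ j, g j) R) k[X] := by
  obtain ⟨h3, h4, h5⟩ := mainR K h2 hg.monic hg.irreducible hg.distinct hg.degree rfl hg.odd_deg
    hR.adm hRi
  exact ⟨rankIs_of h3 h4, h5⟩

theorem part2 (h2 : (2 : k) ≠ 0) (hg : OddFactors g) (hR : Admissible (∏ j, g j) R)
    (hRi : Irreducible R) (hm2 : 2 ≤ m) : Generated K g R := by
  have hEm : (∏ j, g j).Monic := monic_prod_of_monic _ _ fun j _ => hg.monic j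
  have ho := hg.odd_deg
  have hf := hR.adm.goodCurve h2 hEm ho
  have hL := liftR hg.monic hg.irreducible hg.distinct hg.degree rfl hR.adm hRi
  obtain ⟨P, hP, -, h6⟩ := critP K h2 hf hRi hL hm2 (D := Finset.univ) (u := fun _ => 1) (by
    intro j _
    have h7 : fR (∏ j, g j) R - C R * 1 ^ 2 = ∏ j, (g j).map C := by
      rw [fR, Polynomial.map_prod]
      ring
    rw [h7]
    exact Finset.dvd_prod_of_mem (fun j => (g j).map C) (Finset.mem_univ j))
  obtain ⟨h8, -⟩ := h6 (by rw [Finset.card_univ, Fintype.card_fin]; omega)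
  refine ⟨fun j => Additive.toMul (P j), ?_, ?_⟩
  · intro j
    have hc : cP K (fR (∏ j, g j) R) R (1 : k[X][X]) =
        C (algebraMap k[X] K R ^ (((∏ j, g j).natDegree + 1) / 2)) := by
      unfold cP
      rw [fR_deg ho.pos, Polynomial.map_one, one_comp, mul_one]
    have h9 := hP j (Finset.mem_univ j)
    rw [hc] at h9
    obtain ⟨a, b, c⟩ := h9
    exact ⟨a, b, congrArg Additive.toMul c⟩
  · intro x
    obtain ⟨S, hS, y, hy⟩ := h8 (Additive.ofMul x)
    refine ⟨S, Additive.toMul y, ?_⟩
    have := congrArg Additive.toMul hy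
    rw [toMul_add, toMul_sum, toMul_nsmul] at this
    exact this

end parts

theorem part3 (n : ℕ) (hn : Odd n) (hn3 : 3 ≤ n) : ∃ C0 : ℕ, ∀ (k : Type) [Field k] [Finite k],
    C0 < Nat.card k → 4 * n ∣ Nat.card k - 1 → ∀ (m : ℕ) (g : Fin m → k[X]), OddFactors g →
      (∏ j, g j).natDegree = n → Nat.card k ≤ 2 * n ^ n * {e : k | GoodTower g e}.ncard := by
  obtain ⟨C0, hC0⟩ := Run7.h905.CB.nc n (by omega)
  refine ⟨C0, ?_⟩
  intro k _ _ hcard hd m g hg hgn
  obtain ⟨h2, ⟨ι, hι⟩, ζ, hζ⟩ := roots_of (k := k) (by omega : n ≠ 0) hd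
  have hEm : (∏ j, g j).Monic := monic_prod_of_monic _ _ fun j _ => hg.monic j
  refine (hC0 k ζ hζ _ hEm hgn hcard).trans
    (Nat.mul_le_mul_left _ (Set.ncard_le_ncard ?_ (Set.toFinite _)))
  intro e he c hce i K _ _ _
  have hc : c ≠ 0 := by
    rintro rfl
    exact hce 0 (by rw [div_zero, zero_pow two_ne_zero])
  obtain ⟨h3, h4, h5⟩ := mainE K h2 hι hg.monic hg.irreducible hg.distinct hg.degree rfl
    hg.odd_deg he hc hce i
  exact ⟨rankIs_of h3 h4, h5⟩

theorem result :
    (∀ (k K : Type) [Field k] [PerfectField k] [Field K] [Algebra k[X] K] [IsFractionRing k[X] K],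
      (2 : k) ≠ 0 → ∀ (m : ℕ) (g : Fin m → k[X]), OddFactors g →
      ∀ R : k[X], Admissible (∏ j, g j) R → Irreducible R →
      RankIs (curve K (∏ j, g j) R) (m - 1) ∧ ShaTrivial 2 (curve K (∏ j, g j) R) k[X] ∧
        (2 ≤ m → Generated K g R)) ∧
    ∀ n : ℕ, Odd n → 3 ≤ n → ∃ C0 : ℕ, ∀ (k : Type) [Field k] [Finite k],
      C0 < Nat.card k → 4 * n ∣ Nat.card k - 1 → ∀ (m : ℕ) (g : Fin m → k[X]), OddFactors g →
      (∏ j, g j).natDegree = n → Nat.card k ≤ 2 * n ^ n * {e : k | GoodTower g e}.ncard := by
  refine ⟨?_, part3⟩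
  intro k K _ _ _ _ _ h2 m g hg R hR hRi
  obtain ⟨h3, h4⟩ := part1 K h2 hg hR hRi
  exact ⟨h3, h4, part2 K h2 hg hR hRi⟩

end Pool.Agent.Results.MP_60d5ce_nt.QuadraticTowers
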