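import Pool.Agent.Run7.h905.BS.PtsU
import Pool.Agent.Run7.h905.BS.Spec

/-!
# Twists by primes: the rank, the Mordell-Weil group modulo 2 and the Tate-Shafarevich group

Let `k` be a perfect field of characteristic different from 2 and `C` an affine plane curve
`f(x, t) = 0` over `k`, `f` monic in `x` of odd degree `n`, which is smooth, whose coordinate ring is a
Dedekind domain with no ideal class of order two, and whose units are the constants. (For example
`t = a(x)` with `a` monic of odd degree; or, for finite `k`, a smooth curve of odd class number with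
one point over `t = ∞`, rational over `k`.) Let `Q(t)` be a prime polynomial which is unramified in
`C → 𝔸 ^ 1`, with `m` places of `C` above it, given by the irreducible factors of `f` modulo `Q`, and
let `h_1, …, h_m` be monic polynomials lifting these factors. Let `J` be the Jacobian of the curve
`Q(t) y ^ 2 = f(x, t)` of genus `(n - 1) / 2` over `K = k(t)`.

Theorem.
1. `J(K)[2] = 0`, the order of `J(K) / 2 J(K)` is `2 ^ r` with `r ≤ m - 1`, and if `r = m - 1` then the
   2-primary part of the Tate-Shafarevich group of `J` is zero.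
2. Let `m ≥ 2`, and suppose that `h_j` divides `f - Q u_j ^ 2` for the `j` in a set `D`, i.e. that there
   is an integral divisor `P_j : h_j(x) = 0, y = u_j(x)` on the curve. Then the only relation between
   the classes of the `P_j`, `j ∈ D`, in `J(K) / 2 J(K)` is that the sum of all of them is zero if
   `D` is the set of all indices. If `D` has at least `m - 1` elements, the classes of the
   `P_j` generate `J(K) / 2 J(K)`, `r = m - 1`, and the 2-primary part of the Tate-Shafarevich group is
   zero.
3. The curves `t = a(x)`, `a` monic of odd degree, satisfy the hypotheses on `C`.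

Let `k` be finite. Then `J(K)` is finitely generated (Lang, Néron), so `r` is the rank. If `r = m - 1`,
then by 1 the Tate-Shafarevich group has trivial 2-primary part, so the Brauer group of a smooth
projective model of the surface `Q(t) y ^ 2 = f(x, t)` is finite (Artin, Tate, Milne), and by Kato
and Trihan all three statements of Q1 hold for `J`. (The classical theorems are not formalised.) So
Q1 holds for these Jacobians of rank `m - 1` as soon as they have enough points.
-/

open Polynomial IsDedekindDomain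
open scoped Classical

set_option autoImplicit false
set_option linter.all false

namespace Pool.Agent.Results.MP_60d5ce_nt.TwistsByPrimes

open Pool.Agent.Y713.Jac (J CoordRing)
open Pool.Agent.N352.Sha (ShaTrivial)

section defs

/-- The Jacobian `J` of `y ^ 2 = F(x)` over `K` has no `K`-rational point of order two, the group
`J(K) / 2 J(K)` has `2 ^ r` elements, and the rank of `J(K)` is `r` if `J(K)` is finitely generated. -/
structure RankIs {K : Type} [Field K] (F : K[X]) (r : ℕ) : Prop where
  torsion : ∀ P : J 2 F K, P ^ 2 = 1 → P = 1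
  index : (powMonoidHom 2 : J 2 F K →* J 2 F K).range.index = 2 ^ r
  rank : Group.FG (J 2 F K) → Module.finrank ℤ (Additive (J 2 F K)) = r

/-- The class in `J(K)`, `J` the Jacobian of `y ^ 2 = F(x)`, of the ideal `(p(x), y - c(x))` of the
affine coordinate ring, i.e. of the divisor `p(x) = 0`, `y = c(x)`. -/
def IsClass {K : Type} [Field K] (F p c : K[X]) (P : J 2 F K) : Prop :=
  ∃ (_ : IsDedekindDomain (CoordRing 2 F K))
    (h : Ideal.span {AdjoinRoot.of _ p, AdjoinRoot.root _ - AdjoinRoot.of _ c} ≠
      (⊥ : Ideal (CoordRing 2 F K))),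
    P = ClassGroup.equivPic _ (ClassGroup.mk0
      ⟨Ideal.span {AdjoinRoot.of _ p, AdjoinRoot.root _ - AdjoinRoot.of _ c},
        mem_nonZeroDivisors_of_ne_zero h⟩)

variable {k : Type} [Field k] (K : Type) [Field K] [Algebra k[X] K]

/-- The monic polynomial `F` with `F(Q x) = Q ^ n f(x)`, `n` the degree of `f`. For odd `n` the curve
`Q y ^ 2 = f(x)` is isomorphic to `Y ^ 2 = F(X)` by `X = Q x`, `Y = Q ^ ((n + 1) / 2) y`. -/
noncomputable def twist (f : k[X][X]) (Q : k[X]) : K[X] :=
  (f.map (algebraMap k[X] K)).scaleRoots (algebraMap k[X] K Q)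

/-- `P` is the class of the divisor `h(x) = 0`, `y = u(x)` on the curve `Q y ^ 2 = f(x)`. -/
def IsPoint (f : k[X][X]) (Q : k[X]) (h u : k[X][X]) (P : J 2 (twist K f Q) K) : Prop :=
  IsClass (twist K f Q) (twist K h Q)
    (C (algebraMap k[X] K Q ^ ((f.natDegree + 1) / 2)) *
      (u.map (algebraMap k[X] K)).comp (C (algebraMap k[X] K Q)⁻¹ * X)) P

variable {K}

/-- The affine plane curve `f(x, t) = 0` over `k`: `f` is monic in `x` of odd degree, the curve is
smooth, its coordinate ring is a Dedekind domain, has no ideal class of order two, and its units are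
the constants. -/
structure OddCurve (f : k[X][X]) : Prop where
  monic : f.Monic
  odd : Odd f.natDegree
  smooth : Ideal.span {f, derivative f, f.sum fun i a => C (derivative a) * X ^ i} = ⊤
  dedekind : IsDedekindDomain (AdjoinRoot f)
  classes : ∀ I : Ideal (AdjoinRoot f), (I ^ 2).IsPrincipal → I.IsPrincipal
  units : ∀ v : AdjoinRoot f, IsUnit v → ∃ c : k, v = AdjoinRoot.mk f (C (C c))

/-- The `h_j` are monic, their reductions modulo `Q` are irreducible and distinct, and `f` is modulo
`Q` the product of these reductions: `Q` is unramified in the curve `f(x, t) = 0`, and there are `m`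
places above it. -/
structure SplitsMod (f : k[X][X]) (Q : k[X]) {m : ℕ} (h : Fin m → k[X][X]) : Prop where
  monic : ∀ j, (h j).Monic
  irreducible : ∀ j, Irreducible ((h j).map (AdjoinRoot.mk Q))
  distinct : Function.Injective fun j => (h j).map (AdjoinRoot.mk Q)
  product : f.map (AdjoinRoot.mk Q) = ∏ j, (h j).map (AdjoinRoot.mk Q)

variable (K) in
/-- For the Jacobian `J` of `Q y ^ 2 = f(x)` over `K = k(t)`: the order of `J(K) / 2 J(K)` is `2 ^ r` with
`r ≤ m - 1`, and if `r = m - 1` then the 2-primary part of the Tate-Shafarevich group is zero. -/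
def RankBound [IsFractionRing k[X] K] (f : k[X][X]) (Q : k[X]) (m : ℕ) : Prop :=
  ∃ r ≤ m - 1, RankIs (twist K f Q) r ∧ (r = m - 1 → ShaTrivial 2 (twist K f Q) k[X])

/-- The product of the `P_j`, `j ∈ S`, is a square only for the empty set and for the set of all
indices. -/
def OnlyRelation {G : Type} [CommGroup G] {m : ℕ} (P : Fin m → G) (D : Finset (Fin m)) : Prop :=
  ∀ S ⊆ D, (∃ R, ∏ j ∈ S, P j = R ^ 2) ↔ S = ∅ ∨ S = Finset.univ

/-- The `P_j`, `j ∈ D`, generate the group modulo squares. -/
def GenerateModSquares {G : Type} [CommGroup G] {m : ℕ} (P : Fin m → G) (D : Finset (Fin m)) :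
    Prop :=
  ∀ x, ∃ S ⊆ D, ∃ R, x = (∏ j ∈ S, P j) * R ^ 2

variable (K) in
/-- There are the classes `P_j` of the divisors `h_j(x) = 0`, `y = u_j(x)`, for the `j ∈ D`; there is only
one possible relation between them in `J(K) / 2 J(K)`; and if `D` has at least `m - 1` elements, they
generate this group, it is of order `2 ^ (m - 1)`, and the 2-primary part of the Tate-Shafarevich
group is zero. -/
def PointsDecide [IsFractionRing k[X] K] (f : k[X][X]) (Q : k[X]) {m : ℕ} (h : Fin m → k[X][X])
    (D : Finset (Fin m)) (u : Fin m → k[X][X]) : Prop :=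
  ∃ P : Fin m → J 2 (twist K f Q) K, (∀ j ∈ D, IsPoint K f Q (h j) (u j) (P j)) ∧
    OnlyRelation P D ∧ (m - 1 ≤ D.card → GenerateModSquares P D ∧
      RankIs (twist K f Q) (m - 1) ∧ ShaTrivial 2 (twist K f Q) k[X])

end defs

open Run7.h905.BS

theorem OddCurve.good {k : Type} [Field k] {f : k[X][X]} (h : OddCurve f) : GoodCurve f :=
  ⟨h.monic, h.odd, h.smooth, h.dedekind, h.classes, h.units⟩

theorem SplitsMod.lift {k : Type} [Field k] {f : k[X][X]} {Q : k[X]} {m : ℕ} {h : Fin m → k[X][X]}
    (H : SplitsMod f Q h) : LiftQ f Q h :=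
  ⟨H.monic, H.irreducible, H.distinct, H.product⟩

theorem line_odd {k : Type} [Field k] {a : k[X]} (ha : a.Monic) (ho : Odd a.natDegree) :
    OddCurve (a.map C - C X) := by
  have h := fa_good ha ho
  exact ⟨h.monic, h.odd, h.smooth, h.ded, h.cls, h.unit⟩

section rank

variable {K : Type} [Field K]

theorem rankIs_of {F : K[X]} {r : ℕ} (h1 : ∀ x : Additive (J 2 F K), 2 • x = 0 → x = 0)
    (h2 : Nat.card (Additive (J 2 F K) ⧸ dbl (Additive (J 2 F K))) = 2 ^ r) : RankIs F r := by
  refine ⟨?_, ?_, ?_⟩
  · intro P hP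
    have := h1 (Additive.ofMul P) (by
      rw [← ofMul_pow, hP]
      rfl)
    exact Additive.ofMul.injective this
  · rw [← h2]
    show Nat.card (J 2 F K ⧸ (powMonoidHom 2 : J 2 F K →* J 2 F K).range) = _
    apply Nat.card_congr
    refine Quotient.congr Additive.ofMul ?_
    intro a b
    show QuotientGroup.leftRel _ a b ↔ QuotientAddGroup.leftRel _ _ _
    rw [QuotientGroup.leftRel_apply, QuotientAddGroup.leftRel_apply, mem_dbl,
      MonoidHom.mem_range]
    constructor
    · rintro ⟨R, hR⟩
      exact ⟨Additive.ofMul R, (congrArg Additive.ofMul hR).symm⟩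
    · rintro ⟨R, hR⟩
      exact ⟨Additive.toMul R, (congrArg Additive.toMul hR).symm⟩
  · intro hfg
    haveI : AddGroup.FG (Additive (J 2 F K)) := by
      rwa [← GroupFG.iff_add_fg] at *
    exact rank_of h1 h2

end rank

section parts

variable {k K : Type} [Field k] [PerfectField k] [Field K] [Algebra k[X] K]
  [IsFractionRing k[X] K] {f : k[X][X]} {Q : k[X]} {m : ℕ} {h : Fin m → k[X][X]}

variable (K) in
theorem bound (h2 : (2 : k) ≠ 0) (hf : OddCurve f) (hQ : Irreducible Q) (hF : SplitsMod f Q h) :
    ∃ r ≤ m - 1, RankIs (twist K f Q) r ∧ (r = m - 1 → ShaTrivial 2 (twist K f Q) k[X]) := by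
  obtain ⟨h3, ⟨r, hr, h4⟩, h5⟩ := critS K h2 hf.good hQ (hF.lift.split hQ)
  refine ⟨r, hr, rankIs_of h3 h4, ?_⟩
  rintro rfl
  exact h5 h4

variable (K) in
theorem points (h2 : (2 : k) ≠ 0) (hf : OddCurve f) (hQ : Irreducible Q) (hF : SplitsMod f Q h)
    (hm : 2 ≤ m) (D : Finset (Fin m)) (u : Fin m → k[X][X])
    (hd : ∀ j ∈ D, h j ∣ f - C Q * u j ^ 2) :
    ∃ P : Fin m → J 2 (twist K f Q) K, (∀ j ∈ D, IsPoint K f Q (h j) (u j) (P j)) ∧
      (∀ S ⊆ D, (∃ R, ∏ j ∈ S, P j = R ^ 2) ↔ S = ∅ ∨ S = Finset.univ) ∧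
      (m - 1 ≤ D.card → (∀ x, ∃ S ⊆ D, ∃ R, x = (∏ j ∈ S, P j) * R ^ 2) ∧
        RankIs (twist K f Q) (m - 1) ∧ ShaTrivial 2 (twist K f Q) k[X]) := by
  obtain ⟨P, hP, h3, h4⟩ := critP K h2 hf.good hQ hF.lift hm hd
  obtain ⟨h5, -, h6⟩ := critS K h2 hf.good hQ (hF.lift.split hQ)
  refine ⟨fun j => Additive.toMul (P j), ?_, ?_, ?_⟩
  · intro j hj
    obtain ⟨a, b, c⟩ := hP j hj
    exact ⟨a, b, congrArg Additive.toMul c⟩
  · intro S hS
    rw [← h3 S hS]
    constructor
    · rintro ⟨R, hR⟩
      refine ⟨Additive.ofMul R, ?_⟩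
      apply Additive.toMul.injective
      rw [toMul_sum, toMul_nsmul]
      exact hR
    · rintro ⟨R, hR⟩
      refine ⟨Additive.toMul R, ?_⟩
      have := congrArg Additive.toMul hR
      rw [toMul_sum, toMul_nsmul] at this
      exact this
  · intro hD
    obtain ⟨h7, h8⟩ := h4 hD
    refine ⟨?_, rankIs_of h5 h8, h6 h8⟩
    intro x
    obtain ⟨S, hS, R, hR⟩ := h7 (Additive.ofMul x)
    refine ⟨S, hS, Additive.toMul R, ?_⟩
    have := congrArg Additive.toMul hR
    rw [toMul_add, toMul_sum, toMul_nsmul] at this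
    exact this

end parts

theorem result :
    (∀ (k K : Type) [Field k] [PerfectField k] [Field K] [Algebra k[X] K] [IsFractionRing k[X] K],
      (2 : k) ≠ 0 → ∀ (f : k[X][X]), OddCurve f → ∀ (Q : k[X]), Irreducible Q →
      ∀ (m : ℕ) (h : Fin m → k[X][X]), SplitsMod f Q h → RankBound K f Q m ∧
        (2 ≤ m → ∀ (D : Finset (Fin m)) (u : Fin m → k[X][X]),
          (∀ j ∈ D, h j ∣ f - C Q * u j ^ 2) → PointsDecide K f Q h D u)) ∧
    ∀ (k : Type) [Field k] (a : k[X]), a.Monic → Odd a.natDegree →
      OddCurve (a.map C - C X : k[X][X]) :=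
  ⟨fun k K _ _ _ _ _ h2 _ hf _ hQ _ _ hF =>
    ⟨bound K h2 hf hQ hF, fun hm D u hd => points K h2 hf hQ hF hm D u hd⟩,
    fun _ _ _ ha ho => line_odd ha ho⟩

end Pool.Agent.Results.MP_60d5ce_nt.TwistsByPrimes
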